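import Mathlib
import Pool.Agent.Q182.TotBdd
import Pool.Agent.Q182.SigmaGdelta

/-!
# A closed `G_δ`-subgroup of a precompact abelian group that is not `N`-characterized
-/

namespace Pool.Agent.Results.MP_f24352_gt.NotNCharacterized

open Filter Topology Set Pointwise

/-- `X` is precompact: Hausdorff and totally bounded. -/
def IsPrecompactGroup (X : Type) [AddCommGroup X] [TopologicalSpace X] : Prop :=
  T2Space X ∧ ∀ U ∈ 𝓝 (0 : X), ∃ E : Set X, E.Finite ∧ U + E = univ

/-- `H` is `N`-characterized: it is the set of common zeros of a sequence of continuous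
characters `X → 𝕋 = ℝ/ℤ`. -/
def IsNCharacterized {X : Type} [AddCommGroup X] [TopologicalSpace X] (H : AddSubgroup X) :
    Prop :=
  ∃ v : ℕ → (X →ₜ+ UnitAddCircle), (H : Set X) = {x | ∀ n, v n x = 0}

/-- Finite binary strings, as pairs (length, string). -/
abbrev S : Type := Σ n : ℕ, (Fin n → Bool)

/-- Finitely supported functions on the set of infinite binary sequences. -/
abbrev Y : Type := (ℕ → Bool) →₀ ZMod 2

/-- Finitely supported functions on the set of finite binary strings. -/
abbrev F0 : Type := S →₀ ZMod 2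

open Classical in
/-- `φ(y)(s) = ∑ y(α)` over the infinite sequences `α` extending `s`. -/
noncomputable def φ : Y →+ (S → ZMod 2) where
  toFun y s := y.sum (fun α a => if s.2 = (fun i : Fin s.1 => α i) then a else 0)
  map_zero' := by
    ext s
    simp
  map_add' y z := by
    ext s
    rw [Pi.add_apply, Finsupp.sum_add_index']
    · intro α
      simp
    · intro α a b
      split_ifs <;> simp

open Classical in
lemma φ_apply (y : Y) (s : S) :
    φ y s = ∑ α ∈ y.support, if s.2 = (fun i : Fin s.1 => α i) then y α else 0 := rfl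

/-- The embedding of `Y × F0` into a compact group. -/
noncomputable def Φ : (Y × F0) →+ (((ℕ → Bool) → ZMod 2) × (S → ZMod 2)) where
  toFun p := (p.1, φ p.1 + p.2)
  map_zero' := by simp
  map_add' p q := by
    ext s
    · simp
    · simp only [Prod.fst_add, map_add, Prod.snd_add, Pi.add_apply, Finsupp.add_apply,
        Prod.snd_add]
      ring

lemma Φ_injective : Function.Injective Φ := by
  rw [injective_iff_map_eq_zero]
  rintro ⟨y, c⟩ h
  have h1 : (y : (ℕ → Bool) → ZMod 2) = 0 := congrArg Prod.fst h
  have h2 : φ y + c = 0 := congrArg Prod.snd h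
  have h3 : y = 0 := DFunLike.coe_injective h1
  subst h3
  rw [map_zero, zero_add] at h2
  have h4 : c = 0 := DFunLike.coe_injective h2
  rw [h4]
  rfl

/-- The group of the example. -/
def X : Type := Y × F0

noncomputable instance : AddCommGroup X := inferInstanceAs (AddCommGroup (Y × F0))

/-- `Φ` on `X`. -/
noncomputable def Ψ : X →+ (((ℕ → Bool) → ZMod 2) × (S → ZMod 2)) := Φ

noncomputable instance : TopologicalSpace X := TopologicalSpace.induced Ψ inferInstance

lemma inducing_Ψ : IsInducing Ψ := ⟨rfl⟩

instance : IsTopologicalAddGroup X := topologicalAddGroup_induced Ψ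

instance : T2Space X := T2Space.of_injective_continuous Φ_injective inducing_Ψ.continuous

/-- The subgroup of the example. -/
noncomputable def F : AddSubgroup X := (AddMonoidHom.fst Y F0).ker

lemma mem_F (x : X) : x ∈ F ↔ x.1 = 0 := Iff.rfl

/-- The second component of `Ψ`. -/
noncomputable def cc (x : X) (s : S) : ZMod 2 := (Ψ x).2 s

lemma cc_eq (x : X) (s : S) : cc x s = φ x.1 s + x.2 s := rfl

lemma continuous_cc (s : S) : Continuous (fun x => cc x s) :=
  (continuous_apply s).comp (continuous_snd.comp inducing_Ψ.continuous)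

lemma continuous_fst' (α : ℕ → Bool) : Continuous (fun x : X => x.1 α) :=
  (continuous_apply α).comp (continuous_fst.comp inducing_Ψ.continuous)

lemma Ψ_injective : Function.Injective Ψ := Φ_injective

lemma isClosed_F : IsClosed (F : Set X) := by
  have : (F : Set X) = ⋂ α : ℕ → Bool, {x : X | x.1 α = 0} := by
    ext x
    simp only [SetLike.mem_coe, mem_F, mem_iInter, mem_ofPred_eq]
    exact DFunLike.ext_iff
  rw [this]
  exact isClosed_iInter fun α => isClosed_eq (continuous_fst' α) continuous_const

/-- The closed sets whose union is the complement of `F`. -/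
def E (N : ℕ) : Set X := {x | ∀ n ≥ N, ∃ t : Fin n → Bool, cc x ⟨n, t⟩ ≠ 0}

lemma isClosed_E (N : ℕ) : IsClosed (E N) := by
  have : E N = ⋂ n ≥ N, ⋃ t : Fin n → Bool, {x : X | cc x ⟨n, t⟩ ≠ 0} := by
    ext x
    simp [E]
  rw [this]
  refine isClosed_biInter fun n _ => isClosed_iUnion_of_finite fun t => ?_
  exact (isClosed_discrete {z : ZMod 2 | z ≠ 0}).preimage (continuous_cc ⟨n, t⟩)

/-- A finitely supported function on strings vanishes on all long strings. -/
lemma level_bound (c : F0) : ∃ N, ∀ n ≥ N, ∀ t : Fin n → Bool, c ⟨n, t⟩ = 0 := by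
  refine ⟨c.support.sup (fun s => s.1) + 1, fun n hn t => ?_⟩
  by_contra h
  have := Finset.le_sup (f := fun s : S => s.1) (Finsupp.mem_support_iff.2 h)
  simp only at this
  omega

lemma F_eq : (F : Set X) = ⋂ N, (E N)ᶜ := by
  ext x
  rw [mem_iInter]
  constructor
  · intro hx N hxN
    obtain ⟨M, hM⟩ := level_bound x.2
    obtain ⟨t, ht⟩ := hxN (max M N) (le_max_right _ _)
    apply ht
    rw [cc_eq, (mem_F x).1 hx, map_zero, hM _ (le_max_left _ _)]
    simp
  · intro hx
    by_contra hxF
    have hx1 : x.1 ≠ 0 := hxF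
    obtain ⟨α, hα⟩ := Finsupp.ne_iff.1 hx1
    rw [Finsupp.zero_apply] at hα
    obtain ⟨M, hM⟩ := level_bound x.2
    -- separation level
    have hsep : ∃ L : ℕ, ∀ n ≥ L, ∀ β ∈ x.1.support, β ≠ α →
        (fun i : Fin n => α i) ≠ (fun i : Fin n => β i) := by
      have h1 : ∀ β : ℕ → Bool, ∃ i, β ≠ α → α i ≠ β i := by
        intro β
        by_cases h : β = α
        · exact ⟨0, fun h' => absurd h h'⟩
        · obtain ⟨i, hi⟩ := Function.ne_iff.1 h
          exact ⟨i, fun _ => fun h' => hi h'.symm⟩
      choose f hf using h1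
      refine ⟨x.1.support.sup f + 1, fun n hn β hβ hβα h => ?_⟩
      have h2 := Finset.le_sup (f := f) hβ
      have h3 : f β < n := by omega
      exact hf β hβα (congrFun h ⟨f β, h3⟩)
    obtain ⟨L, hL⟩ := hsep
    apply hx (max M L)
    intro n hn
    refine ⟨fun i => α i, ?_⟩
    rw [cc_eq, hM n ((le_max_left _ _).trans hn), add_zero]
    have : φ x.1 ⟨n, fun i => α i⟩ = x.1 α := by
      rw [φ_apply, Finset.sum_eq_single α]
      · simp
      · intro β hβ hβα
        rw [if_neg]
        exact hL n ((le_max_right _ _).trans hn) β hβ hβα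
      · intro h
        simpa using h
    rw [this]
    exact hα

/-- Elements of order two of the circle. -/
def T2 : Set UnitAddCircle := {t | (2 : ℕ) • t = 0 ∧ t ≠ 0}

lemma finite_T2 : T2.Finite :=
  (AddCircle.finite_torsion (1 : ℝ) (n := 2) (by norm_num)).subset fun _ h => h.1

lemma zmod2 (z : ZMod 2) : z + z = 0 := by
  revert z
  decide

lemma two_smul_X (x : X) : x + x = 0 := by
  apply Ψ_injective
  rw [map_zero, map_add]
  refine Prod.ext ?_ ?_
  · funext i
    exact zmod2 _
  · funext i
    exact zmod2 _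

/-- Every continuous character of `X` depends on finitely many coordinates. -/
lemma char_finite (χ : X →ₜ+ UnitAddCircle) :
    ∃ (A : Finset (ℕ → Bool)) (B : Finset S), ∀ x : X, (∀ α ∈ A, x.1 α = 0) →
      (∀ s ∈ B, cc x s = 0) → χ x = 0 := by
  have h1 : T2ᶜ ∈ 𝓝 (χ 0) := by
    rw [map_zero]
    exact finite_T2.isClosed.isOpen_compl.mem_nhds (fun h => h.2 rfl)
  have h2 : χ ⁻¹' T2ᶜ ∈ 𝓝 (0 : X) := χ.continuous_toFun.continuousAt.preimage_mem_nhds h1
  rw [inducing_Ψ.nhds_eq_comap, map_zero, mem_comap] at h2
  obtain ⟨V, hV, hVU⟩ := h2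
  rw [show (0 : ((ℕ → Bool) → ZMod 2) × (S → ZMod 2)) = (0, 0) from rfl, nhds_prod_eq,
    Filter.mem_prod_iff] at hV
  obtain ⟨V1, hV1, V2, hV2, hV12⟩ := hV
  obtain ⟨A, hA⟩ := Q182.SigmaProd.cube_mem_nhds hV1
  obtain ⟨B, hB⟩ := Q182.SigmaProd.cube_mem_nhds hV2
  refine ⟨A, B, fun x hxA hxB => ?_⟩
  have h3 : χ x ∉ T2 := hVU (hV12 ⟨hA _ hxA, hB _ hxB⟩)
  by_contra h4
  refine h3 ⟨?_, h4⟩
  rw [two_nsmul, ← map_add, two_smul_X, map_zero]

lemma not_N : ¬ IsNCharacterized F := by
  classical
  rintro ⟨v, hv⟩
  choose A B hAB using fun n => char_finite (v n)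
  have hker : ∀ n (c : F0), v n (0, c) = 0 := by
    intro n c
    have h : ((0, c) : X) ∈ (F : Set X) := rfl
    rw [hv] at h
    exact h n
  have key : ∀ n (x : X), (∀ α ∈ A n, x.1 α = 0) → v n x = 0 := by
    intro n x hx
    -- subtract an element of `F` with the same second component on `B n`
    let c : F0 := ∑ s ∈ B n, Finsupp.single s (cc x s)
    have hc : ∀ s ∈ B n, c s = cc x s := by
      intro s hs
      simp only [c, Finsupp.finsetSum_apply]
      rw [Finset.sum_eq_single s]
      · simp
      · intro t _ ht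
        rw [Finsupp.single_apply, if_neg ht]
      · intro h
        exact absurd hs h
    let z : X := (0, c)
    have h1 : v n (x - z) = 0 := by
      apply hAB
      · intro α hα
        show (x.1 - 0) α = 0
        rw [sub_zero]
        exact hx α hα
      · intro s hs
        have : cc (x - z) s = cc x s - c s := by
          show (Ψ (x - z)).2 s = _
          rw [map_sub]
          show cc x s - (φ 0 s + c s) = _
          rw [map_zero]
          simp
        rw [this, hc s hs, sub_self]
    have h2 : v n z = 0 := hker n c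
    rw [map_sub, h2, sub_zero] at h1
    exact h1
  obtain ⟨α, hα⟩ : ∃ α : ℕ → Bool, ∀ n, α ∉ A n := by
    by_contra hcon
    push Not at hcon
    have h1 : (univ : Set (ℕ → Bool)) ⊆ ⋃ n, (A n : Set (ℕ → Bool)) := by
      intro α _
      obtain ⟨n, hn⟩ := hcon α
      exact mem_iUnion.2 ⟨n, hn⟩
    have h2 : (univ : Set (ℕ → Bool)).Countable :=
      (Set.countable_iUnion fun n => (A n).countable_toSet).mono h1
    have h4 : Countable (ℕ → Bool) := Set.countable_univ_iff.1 h2
    obtain ⟨f, hf⟩ := exists_surjective_nat (ℕ → Bool)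
    obtain ⟨n, hn⟩ := hf (fun n => !(f n n))
    have h3 := congrFun hn n
    revert h3
    cases f n n <;> simp
  have h3 : ((Finsupp.single α 1, 0) : X) ∈ (F : Set X) := by
    rw [hv]
    intro n
    apply key
    intro β hβ
    show (Finsupp.single α (1 : ZMod 2)) β = 0
    rw [Finsupp.single_apply, if_neg]
    rintro rfl
    exact hα n hβ
  have h4 : (Finsupp.single α (1 : ZMod 2)) = 0 := h3
  have h5 := DFunLike.congr_fun h4 α
  rw [Finsupp.single_eq_same] at h5
  have h6 : (1 : ZMod 2) = 0 := h5
  exact absurd h6 (by decide)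

/-- There are a precompact (Hausdorff, totally bounded) abelian group `X` and a closed subgroup
`F` of `X` that is a `G_δ`-set in `X` but is not `N`-characterized. -/
theorem result :
    ∃ (X : Type) (_ : AddCommGroup X) (_ : TopologicalSpace X) (_ : IsTopologicalAddGroup X)
      (F : AddSubgroup X), IsPrecompactGroup X ∧ IsClosed (F : Set X) ∧ IsGδ (F : Set X) ∧
      ¬ IsNCharacterized F := by
  refine ⟨X, inferInstance, inferInstance, inferInstance, F, ⟨inferInstance, ?_⟩, isClosed_F, ?_,
    not_N⟩
  · intro U hU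
    exact Q182.totally_bounded_of_inducing Ψ inducing_Ψ hU
  · rw [F_eq]
    exact IsGδ.iInter_of_isOpen fun N => (isClosed_E N).isOpen_compl

end Pool.Agent.Results.MP_f24352_gt.NotNCharacterized
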